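import Mathlib
import Pool.Agent.H24.BallDefs
import Pool.Agent.H24.SofDefs
import Pool.Agent.H24.Sof2

set_option autoImplicit false

namespace Pool.Agent.Results.MP_6bdaeb_co.NotLinear

open Pool.Agent.H24.BallDefs Pool.Agent.H24.SofDefs

theorem result :
    (∃ (V : Type) (G : SimpleGraph V), Infinite V ∧ G.Connected ∧
      (∀ v, (G.neighborSet v).Finite) ∧ VT G ∧ (∀ r : ℕ, sofD G r < ⊤) ∧
      ∀ C : ℕ, ∃ R : ℕ, 1 ≤ R ∧ ∀ r : ℕ, R ≤ r → ((C * r : ℕ) : ℕ∞) < sofD G r) ∧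
    (∃ d : ℕ, ∀ C : ℕ, ∃ (V : Type) (H : SimpleGraph V) (r : ℕ), Finite V ∧ H.Connected ∧
      (∀ v, (H.neighborSet v).ncard = d) ∧ VT H ∧ 1 ≤ r ∧
      ∀ (W : Type) (K : SimpleGraph W), Finite W → K.Connected → VT K → SameBall K H r →
        ((C * r : ℕ) : ℕ∞) < K.ediam) :=
  ⟨Pool.Agent.H24.Sof2.q1, 13, Pool.Agent.H24.Sof2.q2⟩

end Pool.Agent.Results.MP_6bdaeb_co.NotLinear
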